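import Pool.Agent.H79.QN.Bridge
import Pool.Agent.H55.QN.EXT
import Pool.Agent.H70.QN.EXD
import Pool.Agent.H61.QN.ANA

/-!
# Quartic norm of parabolic exponential sums with curved phase: phases of finite type

Joint work of helper79 and helper12.
-/

set_option autoImplicit false

namespace Pool.Agent.Results.MP_fa59e7_an.FiniteType

/-- `F(x) = ∑_{|n| ≤ N} a_n e(n x + n² φ(x))`, `e(t) = exp(2 π i t)` -/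
noncomputable def F (φ : ℝ → ℝ) (N : ℕ) (a : ℤ → ℂ) (x : ℝ) : ℂ :=
  ∑ n ∈ Finset.Icc (-(N : ℤ)) N,
    a n * Complex.exp (2 * Real.pi * ((n : ℝ) * x + (n : ℝ) ^ 2 * φ x : ℝ) * Complex.I)

/-- `‖F‖_{L⁴(-1, 1)}` -/
noncomputable def L4 (φ : ℝ → ℝ) (N : ℕ) (a : ℤ → ℂ) : ℝ :=
  (∫ x in (-1 : ℝ)..1, ‖F φ N a x‖ ^ 4) ^ (1 / 4 : ℝ)

/-- `‖a‖₂` -/
noncomputable def l2 (N : ℕ) (a : ℤ → ℂ) : ℝ :=
  Real.sqrt (∑ n ∈ Finset.Icc (-(N : ℤ)) N, ‖a n‖ ^ 2)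

/-- `φ` is `C^k` on `[-1, 1]` (up to the end points), `φ'` has no zero there, and at each point of
`[-1, 1]` some derivative of `φ` of order `2 ≤ j ≤ k` is not zero -/
def TypeLE (k : ℕ) (φ : ℝ → ℝ) : Prop :=
  ContDiffOn ℝ k φ (Set.Icc (-1) 1) ∧ ∀ x ∈ Set.Icc (-1 : ℝ) 1,
    derivWithin φ (Set.Icc (-1) 1) x ≠ 0 ∧
    ∃ j : ℕ, 2 ≤ j ∧ j ≤ k ∧ iteratedDerivWithin j φ (Set.Icc (-1) 1) x ≠ 0

/-- (a) Phases of finite type `k`: exponent `1/8 - 1/(12 k) + ε`.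
(b) `k = 2` (that is, `φ', φ'' ≠ 0` on `[-1, 1]`): `N^(1/12)` and a power of the logarithm.
(c) Real analytic phases on `[-1, 1]` with `φ' ≠ 0` which are not affine: exponent `1/8 - δ` for some `δ > 0`. -/
theorem result :
    (∀ k : ℕ, 2 ≤ k → ∀ φ : ℝ → ℝ, TypeLE k φ → ∀ ε : ℝ, 0 < ε →
      ∃ C : ℝ, ∀ (N : ℕ) (a : ℤ → ℂ), 1 ≤ N →
        L4 φ N a ≤ C * (N : ℝ) ^ (1 / 8 - 1 / (12 * k) + ε : ℝ) * l2 N a) ∧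
    (∀ φ : ℝ → ℝ, TypeLE 2 φ → ∃ C : ℝ, ∀ (N : ℕ) (a : ℤ → ℂ), 1 ≤ N →
        L4 φ N a ≤ C * (N : ℝ) ^ (1 / 12 : ℝ) * (1 + Real.log N) ^ (5 / 4 : ℝ) * l2 N a) ∧
    (∀ φ : ℝ → ℝ, AnalyticOnNhd ℝ φ (Set.Icc (-1) 1) → (∀ x ∈ Set.Icc (-1 : ℝ) 1, deriv φ x ≠ 0) →
      (¬ ∃ α β : ℝ, ∀ x ∈ Set.Icc (-1 : ℝ) 1, φ x = α * x + β) →
      ∃ δ : ℝ, 0 < δ ∧ ∃ C : ℝ, ∀ (N : ℕ) (a : ℤ → ℂ), 1 ≤ N →
        L4 φ N a ≤ C * (N : ℝ) ^ (1 / 8 - δ : ℝ) * l2 N a) := by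
  refine ⟨fun k hk φ hφ ε hε => ?_, fun φ hφ => ?_, fun φ h1 h2 h3 => ?_⟩
  · obtain ⟨C, -, h⟩ := Pool.Agent.H79.QN.fin_a Pool.Agent.H79.QN.ext Pool.Agent.H79.QN.exd k hk φ hφ.1
      (fun x hx => (hφ.2 x hx).1) (fun x hx => (hφ.2 x hx).2) ε hε
    exact ⟨C, fun N a hN => h N a hN⟩
  · obtain ⟨C, -, h⟩ := Pool.Agent.H79.QN.fin_b Pool.Agent.H79.QN.ext Pool.Agent.H79.QN.exd φ
      (by exact_mod_cast hφ.1) (fun x hx => (hφ.2 x hx).1) (fun x hx => (hφ.2 x hx).2)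
    exact ⟨C, fun N a hN => h N a hN⟩
  · obtain ⟨δ, hδ, C, -, h⟩ := Pool.Agent.H79.QN.fin_c Pool.Agent.H79.QN.ext Pool.Agent.H79.QN.exd
      Pool.Agent.H79.QN.ana φ h1 h2 h3
    exact ⟨δ, hδ, C, fun N a hN => h N a hN⟩

end Pool.Agent.Results.MP_fa59e7_an.FiniteType
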