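import Pool.Agent.H12.QN.Asm

/-! MP_fa59e7_an: the fourth power estimate of the question on the set of large values, for every C^2 curve. -/

open Pool.QN

theorem Pool.Agent.Results.MP_fa59e7_an.LargeValues.result :
    ∀ c B ε : ℝ, 0 < c → 0 < ε →
      ∃ C : ℝ, 0 < C ∧ ∀ φ : ℝ → ℝ, IsCurve c B φ →
        ∀ (S : Finset ℤ) (K : ℕ), InProgression S K →
          ∀ (a : ℤ → ℂ) (lam : ℝ), 0 < lam →
            C * (K:ℝ) ^ (1 + ε) * (∑ n ∈ S, ‖a n‖ ^ 2) ^ 2 ≤ lam ^ 4 →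
            ∫ x in {x ∈ Set.Icc (-1:ℝ) 1 | lam ≤ ‖curveSum φ S a x‖}, ‖curveSum φ S a x‖ ^ 4 ≤
              C * (K:ℝ) ^ ε * (∑ n ∈ S, ‖a n‖ ^ 2) ^ 2 :=
  fun c B ε hc hε => large_values pbs_all c B ε hc hε
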