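import Pool.Agent.H79.QN.Bridge
import Pool.Agent.H55.QN.EXT
import Pool.Agent.H70.QN.EXD

/-!
# Quartic norm of parabolic exponential sums with curved phase: products of sums over separated sets
-/

set_option autoImplicit false

namespace Pool.Agent.Results.MP_fa59e7_an.SeparatedProducts

/-- `F_A(x) = ∑_{n ∈ A} a_n e(n x + n² φ(x))`, `e(t) = exp(2 π i t)` -/
noncomputable def F (φ : ℝ → ℝ) (A : Finset ℤ) (a : ℤ → ℂ) (x : ℝ) : ℂ :=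
  ∑ n ∈ A, a n * Complex.exp (2 * Real.pi * ((n : ℝ) * x + (n : ℝ) ^ 2 * φ x : ℝ) * Complex.I)

/-- `φ` is `C²` on `[-1, 1]` (up to the end points) and `φ'`, `φ''` have no zeros there -/
def Curved (φ : ℝ → ℝ) : Prop :=
  ContDiffOn ℝ 2 φ (Set.Icc (-1) 1) ∧ ∀ x ∈ Set.Icc (-1 : ℝ) 1,
    derivWithin φ (Set.Icc (-1) 1) x ≠ 0 ∧
    derivWithin (derivWithin φ (Set.Icc (-1) 1)) (Set.Icc (-1) 1) x ≠ 0

/-- Products of two sums over sets of diameter at most `R` and distance at least `η N`. -/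
theorem result (φ : ℝ → ℝ) (hφ : Curved φ) (η : ℝ) (hη : 0 < η) :
    ∃ C : ℝ, ∀ (N : ℕ) (R : ℝ) (A B : Finset ℤ) (a b : ℤ → ℂ), 1 ≤ N → 0 ≤ R →
      (∀ n ∈ A, |n| ≤ N) → (∀ n ∈ B, |n| ≤ N) →
      (∀ n ∈ A, ∀ n' ∈ A, |(n : ℝ) - n'| ≤ R) → (∀ n ∈ B, ∀ n' ∈ B, |(n : ℝ) - n'| ≤ R) →
      (∀ n ∈ A, ∀ n' ∈ B, η * N ≤ |(n : ℝ) - n'|) →
      ∫ x in (-1 : ℝ)..1, ‖F φ A a x‖ ^ 2 * ‖F φ B b x‖ ^ 2 ≤
        C * (1 + R / (N : ℝ) ^ (2 / 3 : ℝ)) * (1 + Real.log N) ^ 3 *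
          (∑ n ∈ A, ‖a n‖ ^ 2) * ∑ n ∈ B, ‖b n‖ ^ 2 := by
  obtain ⟨C, -, h⟩ := Pool.Agent.H79.QN.fin_sep Pool.Agent.H79.QN.ext Pool.Agent.H79.QN.exd φ hφ.1
    (fun x hx => (hφ.2 x hx).1) (fun x hx => (hφ.2 x hx).2) η hη
  exact ⟨C, fun N R A B a b hN hR hA hB hA2 hB2 hAB => h N R A B a b hN hR hA hB hA2 hB2 hAB⟩

end Pool.Agent.Results.MP_fa59e7_an.SeparatedProducts
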